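import Mathlib
import Pool.Agent.Results.MP_221c76_co.InfClasses

/-!
# A homeomorphism-closed generalized matroidal family with continuum many homeomorphism classes

The family is the one of the starting file `InfClasses`; the new members are cycles of all lengths,
some of which are glued together at one vertex.
-/

set_option autoImplicit false

open Pool.Agent.Results.MP_221c76_co.InfClasses
open Classical

namespace Pool.Agent.Results.MP_221c76_co.ContinuumManyClasses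

universe u

/-- positions on the cycles of lengths `1, 2, 3, …` -/
abbrev P0 : Type := Pos 0

/-- the next position -/
def nx (p : P0) : P0 := ⟨p.1, p.2 + 1⟩

/-- the previous position -/
def pv (p : P0) : P0 := ⟨p.1, p.2 - 1⟩

theorem nx_pv (p : P0) : nx (pv p) = p := by
  obtain ⟨j, t⟩ := p
  show (⟨j, t - 1 + 1⟩ : P0) = ⟨j, t⟩
  rw [sub_add_cancel]

theorem pv_nx (p : P0) : pv (nx p) = p := by
  obtain ⟨j, t⟩ := p
  show (⟨j, t + 1 - 1⟩ : P0) = ⟨j, t⟩
  rw [add_sub_cancel_right]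

/-- the positions which are glued -/
def Mrg (S : Set ℕ) (p : P0) : Prop :=
  p.2 = 0 ∧ 1 ≤ Nat.log 2 p.1.1 ∧ Nat.log 2 p.1.1 - 1 ∈ S

/-- the first position of the cycle of length `2 ^ k` -/
def base (k : ℕ) : P0 := ⟨⟨2 ^ k, by positivity⟩, 0⟩

/-- the representative -/
noncomputable def mg (S : Set ℕ) (p : P0) : P0 :=
  if Mrg S p then base (Nat.log 2 p.1.1) else p

variable {S : Set ℕ}

theorem mg_log {p : P0} (hp : Mrg S p) : Mrg S (mg S p) ∧
    Nat.log 2 (mg S p).1.1 = Nat.log 2 p.1.1 := by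
  have h1 : Nat.log 2 (mg S p).1.1 = Nat.log 2 p.1.1 := by
    rw [mg, if_pos hp]
    exact Nat.log_pow (by norm_num) _
  refine ⟨⟨?_, ?_, ?_⟩, h1⟩
  · rw [mg, if_pos hp]
    rfl
  · rw [h1]; exact hp.2.1
  · rw [h1]; exact hp.2.2

theorem mg_eq {p q : P0} (h : mg S p = mg S q) :
    p = q ∨ (Mrg S p ∧ Mrg S q ∧ Nat.log 2 p.1.1 = Nat.log 2 q.1.1) := by
  by_cases hp : Mrg S p
  · by_cases hq : Mrg S q
    · refine Or.inr ⟨hp, hq, ?_⟩
      rw [← (mg_log hp).2, ← (mg_log hq).2, h]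
    · exfalso
      have h1 := (mg_log hp).1
      rw [h, mg, if_neg hq] at h1
      exact hq h1
  · by_cases hq : Mrg S q
    · exfalso
      have h1 := (mg_log hq).1
      rw [← h, mg, if_neg hp] at h1
      exact hp h1
    · left
      rwa [mg, mg, if_neg hp, if_neg hq] at h

theorem mg_of {p q : P0} (hp : Mrg S p) (hq : Mrg S q)
    (h : Nat.log 2 p.1.1 = Nat.log 2 q.1.1) : mg S p = mg S q := by
  rw [mg, mg, if_pos hp, if_pos hq, h]

/-- edges -/
abbrev E0 : Type u := ULift.{u} P0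

/-- vertices -/
abbrev VS (S : Set ℕ) : Type u := ULift.{u} (Set.range (mg S))

/-- first end -/
noncomputable def aS (S : Set ℕ) (x : E0.{u}) : VS.{u} S := ⟨⟨mg S x.down, x.down, rfl⟩⟩

/-- next edge -/
def nxE (x : E0.{u}) : E0.{u} := ⟨nx x.down⟩

/-- previous edge -/
def pvE (x : E0.{u}) : E0.{u} := ⟨pv x.down⟩

theorem nxE_pvE (x : E0.{u}) : nxE (pvE x) = x := by
  show (⟨nx (pv x.down)⟩ : E0.{u}) = x
  rw [nx_pv]

theorem pvE_nxE (x : E0.{u}) : pvE (nxE x) = x := by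
  show (⟨pv (nx x.down)⟩ : E0.{u}) = x
  rw [pv_nx]

theorem nxE_inj : Function.Injective (nxE.{u}) := fun x y h => by
  rw [← pvE_nxE x, h, pvE_nxE]

/-- second end -/
noncomputable def bS (S : Set ℕ) (x : E0.{u}) : VS.{u} S := aS S (nxE x)

/-- the graph -/
noncomputable def gS (S : Set ℕ) (x : E0.{u}) : Sym2 (VS.{u} S) := s(aS S x, bS S x)

theorem aS_eq {x y : E0.{u}} (h : aS S x = aS S y) :
    x = y ∨ (Mrg S x.down ∧ Mrg S y.down ∧
      Nat.log 2 x.down.1.1 = Nat.log 2 y.down.1.1) := by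
  have h1 : mg S x.down = mg S y.down := congrArg (fun v => v.down.1) h
  rcases mg_eq h1 with h2 | h2
  · left
    exact ULift.ext _ _ h2
  · exact Or.inr h2

theorem aS_of {x y : E0.{u}} (hp : Mrg S x.down) (hq : Mrg S y.down)
    (h : Nat.log 2 x.down.1.1 = Nat.log 2 y.down.1.1) : aS S x = aS S y := by
  have h1 := mg_of hp hq h
  apply ULift.ext
  apply Subtype.ext
  exact h1

theorem mem_cyc_gS (z : E0.{u} →₀ ZMod 2) :
    z ∈ cyc (gS.{u} S) ↔ ∀ x, z (nxE x) = z x := by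
  have hchar : ∀ p q : ZMod 2, p + q = 0 ↔ p = q := by decide
  constructor
  · intro hz
    -- at the positions different from `0`
    have h1 : ∀ x : E0.{u}, x.down.2 ≠ 0 → z x = z (pvE x) := by
      intro x hx
      have h2 : bd (gS.{u} S) z (aS S x) = 0 := by
        rw [mem_cyc.mp hz]
        rfl
      rw [bd_eq (gS S) (aS S) (bS S) (fun _ => rfl), Finsupp.add_apply, hchar] at h2
      have h3 : Finsupp.mapDomain (aS S) z (aS S x) = z x := by
        refine mapDomain_uniq _ _ (fun y hy => ?_) z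
        rcases aS_eq hy with h | h
        · exact h
        · exact absurd h.2.1.1 hx
      have h4 : Finsupp.mapDomain (bS S) z (aS S x) = z (pvE x) := by
        have h5 : aS S x = bS S (pvE x) := by
          rw [bS, nxE_pvE]
        rw [h5]
        refine mapDomain_uniq _ _ (fun y hy => ?_) z
        have hy' : aS S (nxE y) = aS S x := by
          rw [h5]; exact hy
        rcases aS_eq hy' with h | h
        · rw [← h, pvE_nxE]
        · exact absurd h.2.1.1 hx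
      rw [← h3, ← h4, h2]
    rintro ⟨⟨j, hj⟩, t⟩
    have : NeZero j := ⟨by omega⟩
    have key : ∀ k : ℕ, k < j → z ⟨⟨⟨j, hj⟩, (k : ZMod j)⟩⟩ = z ⟨⟨⟨j, hj⟩, 0⟩⟩ := by
      intro k
      induction k with
      | zero => intro _; simp
      | succ k ih =>
        intro hk
        have hne : ((k + 1 : ℕ) : ZMod j) ≠ 0 := by
          rw [Ne, ZMod.natCast_eq_zero_iff]
          intro hd
          exact absurd (Nat.le_of_dvd (Nat.succ_pos k) hd) (by omega)
        have h2 := h1 ⟨⟨⟨j, hj⟩, ((k + 1 : ℕ) : ZMod j)⟩⟩ hne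
        rw [h2]
        have h3 : pvE.{u} ⟨⟨⟨j, hj⟩, ((k + 1 : ℕ) : ZMod j)⟩⟩ = ⟨⟨⟨j, hj⟩, (k : ZMod j)⟩⟩ := by
          simp [pvE, pv]
        rw [h3]
        exact ih (by omega)
    have key2 : ∀ t : ZMod j, z ⟨⟨⟨j, hj⟩, t⟩⟩ = z ⟨⟨⟨j, hj⟩, 0⟩⟩ := by
      intro t
      have h2 := key t.val (ZMod.val_lt t)
      rwa [ZMod.natCast_zmod_val] at h2
    show z ⟨⟨⟨j, hj⟩, t + 1⟩⟩ = z ⟨⟨⟨j, hj⟩, t⟩⟩
    exact (key2 _).trans (key2 _).symm
  · intro h
    rw [mem_cyc]
    have h1 : Finsupp.mapDomain nxE z = z := by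
      ext y
      rw [← nxE_pvE y, Finsupp.mapDomain_apply nxE_inj, h]
    have h2 : Finsupp.mapDomain (bS S) z = Finsupp.mapDomain (aS S) z := by
      have h3 : bS.{u} S = aS S ∘ nxE := rfl
      rw [h3, Finsupp.mapDomain_comp, h1]
    rw [bd_eq (gS S) (aS S) (bS S) (fun _ => rfl), h2]
    ext v
    rw [Finsupp.add_apply, Finsupp.zero_apply, hchar]

/-- the edges of the cycle of length `j` -/
def DS (j : ℕ) : Set E0.{u} := {x | x.down.1.1 = j}

theorem DS_eq {j : ℕ} (hj : 0 < j) :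
    DS.{u} j = Set.range (fun t : ZMod j => (⟨⟨⟨j, hj⟩, t⟩⟩ : E0.{u})) := by
  ext x
  constructor
  · obtain ⟨⟨⟨k, hk⟩, t⟩⟩ := x
    rintro hx
    have hx' : k = j := hx
    subst hx'
    exact ⟨t, rfl⟩
  · rintro ⟨t, rfl⟩
    rfl

theorem DS_inj {j : ℕ} (hj : 0 < j) :
    Function.Injective (fun t : ZMod j => (⟨⟨⟨j, hj⟩, t⟩⟩ : E0.{u})) := by
  intro s t h
  have := congrArg ULift.down h
  simpa using this

theorem DS_fin {j : ℕ} (hj : 0 < j) : (DS.{u} j).Finite := by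
  have : NeZero j := ⟨by omega⟩
  rw [DS_eq hj]
  exact Set.finite_range _

theorem nxE_mem {j : ℕ} {x : E0.{u}} : nxE x ∈ DS j ↔ x ∈ DS j := Iff.rfl

theorem cycle_memS {j : ℕ} (hj : 0 < j) :
    ∃ z ∈ cyc (gS.{u} S), ∀ x, z x ≠ 0 ↔ x ∈ DS.{u} j := by
  refine ⟨Finsupp.onFinset (DS_fin.{u} hj).toFinset (fun x => if x ∈ DS.{u} j then 1 else 0)
    (fun x hx => ?_), ?_, fun x => ?_⟩
  · rw [Set.Finite.mem_toFinset]
    by_contra hcon
    rw [if_neg hcon] at hx
    exact hx rfl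
  · rw [mem_cyc_gS]
    intro x
    rw [Finsupp.onFinset_apply, Finsupp.onFinset_apply]
    by_cases hx : x ∈ DS.{u} j
    · rw [if_pos hx, if_pos (nxE_mem.2 hx)]
    · rw [if_neg hx, if_neg fun h => hx (nxE_mem.1 h)]
  · rw [Finsupp.onFinset_apply]
    split_ifs with h
    · simp [h]
    · simp [h]

theorem good_gS : Good (cyc (gS.{u} S)) Set.univ 0 DS := by
  have hrem : rem Set.univ 0 DS.{u} = ∅ := by
    ext x
    constructor
    · rintro ⟨_, h2⟩
      exact h2 x.down.1.1 x.down.1.2 rfl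
    · intro h
      exact h.elim
  refine ⟨⟨?_, ?_, ?_, ?_⟩, ?_, ?_, ?_⟩
  · intro j _; exact Set.subset_univ _
  · intro j hj
    refine ⟨cycle_memS hj, ?_⟩
    intro z hz hne hsub x hx
    rw [mem_cyc_gS] at hz
    have : ∃ y, z y ≠ 0 := by
      by_contra hcon
      push Not at hcon
      exact hne (Finsupp.ext hcon)
    obtain ⟨y, hy⟩ := this
    have hyD := hsub y hy
    rw [DS_eq hj] at hyD hx
    obtain ⟨s, rfl⟩ := hyD
    obtain ⟨t, rfl⟩ := hx
    have := const_of_succ (n := j) hj (f := fun t => z ⟨⟨⟨j, hj⟩, t⟩⟩)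
      (fun t => hz ⟨⟨⟨j, hj⟩, t⟩⟩) t s
    intro h0
    exact hy (this.symm.trans h0)
  · intro j hj
    have : NeZero j := ⟨by omega⟩
    rw [DS_eq hj, ← Set.image_univ, Set.ncard_image_of_injective _ (DS_inj hj),
      Set.ncard_univ, Nat.card_zmod]
  · intro j hj z hz
    rw [mem_ZS] at hz
    have hz' := (mem_cyc_gS z).mp hz.1
    rw [mem_cyc_gS]
    intro x
    rw [res_apply, res_apply]
    by_cases hx : x ∈ DS.{u} j
    · rw [if_pos hx, if_pos (nxE_mem.2 hx)]
      exact hz' x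
    · rw [if_neg hx, if_neg fun h => hx (nxE_mem.1 h)]
  · rw [hrem]; exact Set.finite_empty
  · unfold rk
    have hZS : ZS (cyc (gS.{u} S)) (rem Set.univ 0 DS.{u}) = ⊥ := by
      rw [hrem, eq_bot_iff]
      intro z hz
      rw [mem_ZS] at hz
      rw [Submodule.mem_bot]
      ext x
      by_contra hne
      exact (hz.2 x hne).elim
    rw [hZS, finrank_bot]
  · intro x _
    obtain ⟨z, hz, hzD⟩ := cycle_memS.{u} (S := S) x.down.1.2
    exact ⟨z, mem_ZS.mpr ⟨hz, fun _ _ => trivial⟩, (hzD _).mpr rfl⟩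

/-- the example as a graph -/
noncomputable def GS (S : Set ℕ) : MGraph.{u} := ⟨VS S, E0, gS S⟩

theorem exists_aS (v : VS.{u} S) : ∃ x : E0.{u}, aS S x = v := by
  obtain ⟨⟨_, p, rfl⟩⟩ := v
  exact ⟨⟨p⟩, rfl⟩

theorem fam_GS (S : Set ℕ) : Fam (GS.{u} S) := by
  refine ⟨?_, 0, DS, good_gS⟩
  intro v
  obtain ⟨x, hx⟩ := exists_aS v
  refine ⟨x, ?_⟩
  show v ∈ gS S x
  rw [gS, hx]
  exact Sym2.mem_mk_left _ _

theorem degE_GS (v : VS.{u} S) : degE (gS.{u} S) v = 2 * Set.encard {x | aS S x = v} := by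
  have h1 : {x | v ∈ gS.{u} S x} = {x | aS S x = v} ∪ {x | bS S x = v} := by
    ext x
    simp only [gS, Sym2.mem_iff, Set.mem_ofPred_eq, Set.mem_union]
    exact or_congr eq_comm eq_comm
  have h2 : {x | gS.{u} S x = s(v, v)} = {x | aS S x = v} ∩ {x | bS S x = v} := by
    ext x
    simp only [gS, Sym2.eq_iff, Set.mem_ofPred_eq, Set.mem_inter_iff, or_self]
  have h3 : {x | aS.{u} S x = v} = nxE '' {x | bS S x = v} := by
    ext x
    constructor
    · intro hx
      refine ⟨pvE x, ?_, nxE_pvE x⟩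
      show aS S (nxE (pvE x)) = v
      rw [nxE_pvE]
      exact hx
    · rintro ⟨y, hy, rfl⟩
      exact hy
  have h4 : Set.encard {x | bS.{u} S x = v} = Set.encard {x | aS S x = v} := by
    rw [h3, nxE_inj.encard_image]
  unfold degE
  rw [h1, h2, Set.encard_union_add_encard_inter, h4, two_mul]

theorem fibre_mrg {x : E0.{u}} (hx : Mrg S x.down) :
    Set.encard {y | aS.{u} S y = aS S x} = ((2 ^ Nat.log 2 x.down.1.1 : ℕ) : ℕ∞) := by
  set k := Nat.log 2 x.down.1.1 with hk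
  have hpos : ∀ i ∈ Finset.Ico (2 ^ k) (2 ^ (k + 1)), 0 < i := fun i hi =>
    lt_of_lt_of_le (by positivity) (Finset.mem_Ico.1 hi).1
  have h1 : {y | aS.{u} S y = aS S x} = Set.range
      (fun i : Finset.Ico (2 ^ k) (2 ^ (k + 1)) =>
        (⟨⟨⟨i.1, hpos i.1 i.2⟩, 0⟩⟩ : E0.{u})) := by
    ext y
    constructor
    · intro hy
      have hy' : Mrg S y.down ∧ Nat.log 2 y.down.1.1 = k := by
        rcases aS_eq hy with h | h
        · rw [h]
          exact ⟨hx, rfl⟩
        · exact ⟨h.1, h.2.2⟩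
      obtain ⟨⟨⟨j, hj⟩, t⟩⟩ := y
      obtain ⟨⟨ht, -⟩, hlog⟩ := hy'
      have ht' : t = 0 := ht
      have hlog' : Nat.log 2 j = k := hlog
      subst ht'
      refine ⟨⟨j, Finset.mem_Ico.2 ⟨?_, ?_⟩⟩, rfl⟩
      · rw [← hlog']
        exact Nat.pow_log_le_self 2 hj.ne'
      · rw [← hlog']
        exact Nat.lt_pow_succ_log_self one_lt_two j
    · rintro ⟨i, rfl⟩
      have hi := Finset.mem_Ico.1 i.2
      have hlog : Nat.log 2 i.1 = k := Nat.log_eq_of_pow_le_of_lt_pow hi.1 hi.2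
      refine aS_of ⟨rfl, ?_, ?_⟩ hx hlog
      · show 1 ≤ Nat.log 2 i.1
        rw [hlog]
        exact hx.2.1
      · show Nat.log 2 i.1 - 1 ∈ S
        rw [hlog]
        exact hx.2.2
  have hinj : Function.Injective (fun i : Finset.Ico (2 ^ k) (2 ^ (k + 1)) =>
      (⟨⟨⟨i.1, hpos i.1 i.2⟩, 0⟩⟩ : E0.{u})) := by
    intro i i' h
    have h2 := congrArg (fun y : E0.{u} => y.down.1.1) h
    exact Subtype.ext h2
  rw [h1, ← Set.image_univ, hinj.encard_image, Set.encard_univ, ENat.card_eq_coe_fintype_card,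
    Fintype.card_coe, Nat.card_Ico]
  congr 1
  rw [pow_succ]
  omega

theorem fibre_not {x : E0.{u}} (hx : ¬ Mrg S x.down) :
    Set.encard {y | aS.{u} S y = aS S x} = 1 := by
  have h1 : {y | aS.{u} S y = aS S x} = {x} := by
    ext y
    constructor
    · intro hy
      rcases aS_eq hy with h | h
      · exact h
      · exact absurd h.2.1 hx
    · rintro rfl
      rfl
  rw [h1, Set.encard_singleton]

theorem degs_GS (S : Set ℕ) : degs (GS.{u} S) = (fun k : ℕ => ((2 ^ (k + 2) : ℕ) : ℕ∞)) '' S := by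
  ext d
  constructor
  · rintro ⟨hd, v, hv⟩
    obtain ⟨x, rfl⟩ := exists_aS v
    have hv' : degE (gS.{u} S) (aS S x) = d := hv
    rw [degE_GS] at hv'
    by_cases hx : Mrg S x.down
    · rw [fibre_mrg hx] at hv'
      refine ⟨Nat.log 2 x.down.1.1 - 1, hx.2.2, ?_⟩
      rw [← hv']
      have h1 : Nat.log 2 x.down.1.1 - 1 + 2 = Nat.log 2 x.down.1.1 + 1 := by
        have := hx.2.1
        omega
      show ((2 ^ (Nat.log 2 x.down.1.1 - 1 + 2) : ℕ) : ℕ∞) = _
      rw [h1, pow_succ]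
      push_cast
      ring
    · rw [fibre_not hx, mul_one] at hv'
      exact absurd hv'.symm hd
  · rintro ⟨k, hk, rfl⟩
    have hlog : Nat.log 2 (2 ^ (k + 1)) = k + 1 := Nat.log_pow (by norm_num) _
    have hx : Mrg S (base (k + 1)) := by
      refine ⟨rfl, ?_, ?_⟩
      · show 1 ≤ Nat.log 2 (2 ^ (k + 1))
        rw [hlog]
        omega
      · show Nat.log 2 (2 ^ (k + 1)) - 1 ∈ S
        rw [hlog]
        exact hk
    refine ⟨?_, aS S ⟨base (k + 1)⟩, ?_⟩
    · intro h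
      have h0 : ((2 ^ (k + 2) : ℕ) : ℕ∞) = ((2 : ℕ) : ℕ∞) := h
      have h1 : 2 ^ (k + 2) = 2 := by exact_mod_cast h0
      have h2 : 2 ^ (k + 2) = 4 * 2 ^ k := by ring
      have h3 : 0 < 2 ^ k := by positivity
      omega
    · show degE (gS.{u} S) (aS S ⟨base (k + 1)⟩) = _
      rw [degE_GS, fibre_mrg (x := ⟨base (k + 1)⟩) hx]
      show 2 * ((2 ^ Nat.log 2 (2 ^ (k + 1)) : ℕ) : ℕ∞) = _
      rw [hlog]
      push_cast
      ring

theorem classes_inj : Function.Injective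
    (fun S : Set ℕ => (Quot.mk _ ⟨GS.{u} S, fam_GS S⟩ : HomeoClasses (Fam.{u}))) := by
  let inv : HomeoClasses (Fam.{u}) → Set ℕ∞ :=
    Quot.lift (fun G => degs G.1) (fun _ _ h => degs_homeo h)
  intro S S' h
  have h1 : inv (Quot.mk _ ⟨GS.{u} S, fam_GS S⟩) = inv (Quot.mk _ ⟨GS.{u} S', fam_GS S'⟩) :=
    congrArg inv h
  have h2 : degs (GS.{u} S) = degs (GS.{u} S') := h1
  rw [degs_GS, degs_GS] at h2
  refine Function.Injective.image_injective ?_ h2
  intro k l hkl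
  have hkl' : ((2 ^ (k + 2) : ℕ) : ℕ∞) = ((2 ^ (l + 2) : ℕ) : ℕ∞) := hkl
  have h3 : 2 ^ (k + 2) = 2 ^ (l + 2) := by exact_mod_cast hkl'
  have h4 := Nat.pow_right_injective (le_refl 2) h3
  omega

/-! ### At most continuum many classes -/

theorem countable_E {G : MGraph.{u}} (h : Fam G) : Countable G.E := by
  obtain ⟨-, N, D, h⟩ := h
  have h1 : (Set.univ : Set G.E) ⊆ rem Set.univ N D ∪ ⋃ j : {j // N < j}, D j.1 := by
    intro x _
    by_cases hx : ∃ j, N < j ∧ x ∈ D j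
    · obtain ⟨j, hj, hx⟩ := hx
      exact Or.inr (Set.mem_iUnion.2 ⟨⟨j, hj⟩, hx⟩)
    · push Not at hx
      exact Or.inl ⟨trivial, hx⟩
  have h2 : (rem Set.univ N D ∪ ⋃ j : {j // N < j}, D j.1).Countable :=
    h.fin.countable.union (Set.countable_iUnion fun j => (h.fin_D j.2).countable)
  exact Set.countable_univ_iff.1 (h2.mono h1)

theorem countable_V {G : MGraph.{u}} (h : Fam G) : Countable G.V := by
  have hE := countable_E h
  have h1 : (Set.univ : Set G.V) ⊆ ⋃ x : G.E, {v | v ∈ G.ends x} := by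
    intro v _
    obtain ⟨x, hx⟩ := h.1 v
    exact Set.mem_iUnion.2 ⟨x, hx⟩
  refine Set.countable_univ_iff.1 (Set.Countable.mono h1 (Set.countable_iUnion fun x => ?_))
  have h2 : ∀ s : Sym2 G.V, {v | v ∈ s}.Countable := by
    intro s
    induction s using Sym2.ind with
    | _ a b =>
      have : {v | v ∈ s(a, b)} = {a, b} := by
        ext v
        simp
      rw [this]
      exact (Set.toFinite _).countable
  exact h2 _

/-- a code of a graph -/
def code (G : MGraph.{u}) (iV : G.V → ℕ) (iE : G.E → ℕ) : Set (ℕ ⊕ ℕ ⊕ (ℕ × ℕ × ℕ)) :=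
  {c | (∃ v, c = Sum.inl (iV v)) ∨ (∃ x, c = Sum.inr (Sum.inl (iE x))) ∨
    ∃ x a b, G.ends x = s(a, b) ∧ c = Sum.inr (Sum.inr (iE x, iV a, iV b))}

theorem exists_equiv {A B : Type u} {f : A → ℕ} {g : B → ℕ} (hf : Function.Injective f)
    (hg : Function.Injective g) (h1 : ∀ a, ∃ b, g b = f a) (h2 : ∀ b, ∃ a, f a = g b) :
    ∃ e : A ≃ B, ∀ a, g (e a) = f a := by
  choose k hk using h1
  refine ⟨Equiv.ofBijective k ⟨fun a a' h => hf ?_, fun b => ?_⟩, hk⟩
  · rw [← hk, ← hk, h]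
  · obtain ⟨a, ha⟩ := h2 b
    exact ⟨a, hg ((hk a).trans ha)⟩

theorem iso_of_code {G H : MGraph.{u}} {iV : G.V → ℕ} {iE : G.E → ℕ} {jV : H.V → ℕ}
    {jE : H.E → ℕ} (hiV : Function.Injective iV) (hiE : Function.Injective iE)
    (hjV : Function.Injective jV) (hjE : Function.Injective jE)
    (h : code G iV iE = code H jV jE) : Nonempty (Iso G H) := by
  have a1 : ∀ a, ∃ b, jV b = iV a := by
    intro a
    have h1 : Sum.inl (iV a) ∈ code H jV jE := h ▸ Or.inl ⟨a, rfl⟩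
    rcases h1 with ⟨b, hb⟩ | ⟨x, hx⟩ | ⟨x, c, d, -, hx⟩
    · exact ⟨b, (Sum.inl_injective hb).symm⟩
    · exact absurd hx (by simp)
    · exact absurd hx (by simp)
  have a2 : ∀ b, ∃ a, iV a = jV b := by
    intro a
    have h1 : Sum.inl (jV a) ∈ code G iV iE := h ▸ Or.inl ⟨a, rfl⟩
    rcases h1 with ⟨b, hb⟩ | ⟨x, hx⟩ | ⟨x, c, d, -, hx⟩
    · exact ⟨b, (Sum.inl_injective hb).symm⟩
    · exact absurd hx (by simp)
    · exact absurd hx (by simp)
  have b1 : ∀ a, ∃ b, jE b = iE a := by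
    intro a
    have h1 : Sum.inr (Sum.inl (iE a)) ∈ code H jV jE := h ▸ Or.inr (Or.inl ⟨a, rfl⟩)
    rcases h1 with ⟨b, hb⟩ | ⟨x, hx⟩ | ⟨x, c, d, -, hx⟩
    · exact absurd hb (by simp)
    · exact ⟨x, (Sum.inl_injective (Sum.inr_injective hx)).symm⟩
    · exact absurd (Sum.inr_injective hx) (by simp)
  have b2 : ∀ b, ∃ a, iE a = jE b := by
    intro a
    have h1 : Sum.inr (Sum.inl (jE a)) ∈ code G iV iE := h ▸ Or.inr (Or.inl ⟨a, rfl⟩)
    rcases h1 with ⟨b, hb⟩ | ⟨x, hx⟩ | ⟨x, c, d, -, hx⟩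
    · exact absurd hb (by simp)
    · exact ⟨x, (Sum.inl_injective (Sum.inr_injective hx)).symm⟩
    · exact absurd (Sum.inr_injective hx) (by simp)
  obtain ⟨eV, heV⟩ := exists_equiv hiV hjV a1 a2
  obtain ⟨eE, heE⟩ := exists_equiv hiE hjE b1 b2
  refine ⟨⟨eV, eE, fun x => ?_⟩⟩
  obtain ⟨a, b, hab⟩ : ∃ a b, G.ends x = s(a, b) := by
    induction hx : G.ends x using Sym2.ind with
    | _ a b => exact ⟨a, b, rfl⟩
  have h1 : Sum.inr (Sum.inr (iE x, iV a, iV b)) ∈ code H jV jE :=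
    h ▸ Or.inr (Or.inr ⟨x, a, b, hab, rfl⟩)
  rcases h1 with ⟨v, hv⟩ | ⟨y, hy⟩ | ⟨y, c, d, hcd, hy⟩
  · exact absurd hv (by simp)
  · exact absurd (Sum.inr_injective hy) (by simp)
  · have h2 := Sum.inr_injective (Sum.inr_injective hy)
    rw [Prod.mk.injEq, Prod.mk.injEq] at h2
    obtain ⟨e1, e2, e3⟩ := h2
    have f1 : eE x = y := hjE ((heE x).trans e1)
    have f2 : eV a = c := hjV ((heV a).trans e2)
    have f3 : eV b = d := hjV ((heV b).trans e3)
    rw [f1, hcd, hab, Sym2.map_mk, ← f2, ← f3]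

theorem homeo_of_iso {G H : MGraph.{u}} (φ : Iso G H) : Homeomorphic G H :=
  ⟨G, G, G, Relation.ReflTransGen.refl, ⟨⟨Equiv.refl _, Equiv.refl _, fun x => by simp⟩⟩,
    Relation.ReflTransGen.refl, ⟨φ⟩⟩

theorem exists_code : ∃ f : HomeoClasses (Fam.{u}) → Set (ℕ ⊕ ℕ ⊕ (ℕ × ℕ × ℕ)),
    Function.Injective f := by
  have hV : ∀ c : HomeoClasses (Fam.{u}), ∃ i : c.out.1.V → ℕ, Function.Injective i := fun c => by
    have := countable_V c.out.2
    exact exists_injective_nat _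
  have hE : ∀ c : HomeoClasses (Fam.{u}), ∃ i : c.out.1.E → ℕ, Function.Injective i := fun c => by
    have := countable_E c.out.2
    exact exists_injective_nat _
  choose iV hiV using hV
  choose iE hiE using hE
  refine ⟨fun c => code c.out.1 (iV c) (iE c), fun c c' h => ?_⟩
  obtain ⟨φ⟩ := iso_of_code (hiV c) (hiE c) (hiV c') (hiE c') h
  rw [← Quot.out_eq c, ← Quot.out_eq c']
  exact Quot.sound (homeo_of_iso φ)

theorem mk_classes : Cardinal.mk (HomeoClasses (Fam.{u})) = Cardinal.continuum := by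
  apply le_antisymm
  · obtain ⟨f, hf⟩ := exists_code.{u}
    have h1 := Cardinal.lift_mk_le_lift_mk_of_injective hf
    rw [Cardinal.mk_set, Cardinal.mk_eq_aleph0 (ℕ ⊕ ℕ ⊕ (ℕ × ℕ × ℕ)), Cardinal.two_power_aleph0,
      Cardinal.lift_continuum, Cardinal.lift_uzero] at h1
    exact h1
  · have h1 := Cardinal.lift_mk_le_lift_mk_of_injective classes_inj.{u}
    rw [Cardinal.mk_set, Cardinal.mk_nat, Cardinal.two_power_aleph0,
      Cardinal.lift_continuum, Cardinal.lift_uzero] at h1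
    exact h1

/-- **Theorem.** There is a generalized matroidal family of graphs, closed under homeomorphism, with
exactly continuum many homeomorphism classes. Moreover every member has an edge, no isolated vertices
and only countably many vertices and edges. -/
theorem result : ∃ P : MGraph.{u} → Prop,
    IsGenMatroidalFamily P ∧
    (∀ G H : MGraph.{u}, P G → Homeomorphic G H → P H) ∧
    Cardinal.mk (HomeoClasses P) = Cardinal.continuum ∧
    Infinite (HomeoClasses P) ∧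
    (∀ G : MGraph.{u}, P G → Nonempty G.E ∧ (∀ v : G.V, ∃ e : G.E, v ∈ G.ends e) ∧
      Countable G.V ∧ Countable G.E) := by
  refine ⟨Fam, ⟨⟨GS Set.univ, fam_GS _⟩, circuitAxioms_fam⟩,
    fun G H hG h => fam_homeo h hG, mk_classes, infinite_classes, ?_⟩
  intro G hG
  refine ⟨?_, hG.1, countable_V hG, countable_E hG⟩
  obtain ⟨_, N, D, h⟩ := hG
  have hne : (D (N + 1)).Nonempty := by
    rw [← Set.ncard_pos (h.fin_D (by omega)), h.card (N + 1) (by omega)]; omega
  obtain ⟨x, _⟩ := hne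
  exact ⟨x⟩

end Pool.Agent.Results.MP_221c76_co.ContinuumManyClasses
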